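import Pool.Agent.Helper84.SURF.Geo
import Pool.Agent.Helper14.SURF.Defs

/-!
# Every face lies in a column (project SURF, MP_409f7f_co)
-/

set_option autoImplicit false

namespace Pool.Agent.Helper84.SURF

open Pool.Agent.Helper17.UF Pool.Agent.Helper84.LD Pool.Agent.Helper53.GP Pool.Agent.Helper24.GEO
  Pool.Agent.Helper14.SURF Relation

variable {P : Finset Cube} {c : Cube → Bool}

/-- The `i`-th face above `F0`. -/
def it (P : Finset Cube) (F0 : Face) (i : ℕ) : Face := (fun B => nb P true eCan B Hd.N)^[i] F0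

theorem it_zero (F0 : Face) : it P F0 0 = F0 := rfl

theorem it_succ (F0 : Face) (i : ℕ) : it P F0 (i + 1) = nb P true eCan (it P F0 i) Hd.N :=
  Function.iterate_succ_apply' _ _ _

theorem it_face {F0 : Face} (hF : IsFace P F0) (i : ℕ) : IsFace P (it P F0 i) := by
  induction i with
  | zero => exact hF
  | succ i ih => rw [it_succ]; exact isFace_nbr ih

/-- A wall is compatible on exactly one of the two sides. -/
theorem wall_cmp {A : Face} (hA : Wall A) :
    (Cmp P true eCan A Hd.N ∧ ¬ Cmp P true eCan A Hd.S) ∨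
    (¬ Cmp P true eCan A Hd.N ∧ Cmp P true eCan A Hd.S) := by
  rw [cmp_wall hA (Or.inl rfl), cmp_wall hA (Or.inr rfl)]
  exact wall_one hA

/-- The level is constant along the column. -/
theorem lev_nb {A : Face} (hc : Cmp P true eCan A Hd.N) :
    lev (nb P true eCan A Hd.N) = lev A := by
  by_cases hA : Wall A
  · rw [cmp_wall hA (Or.inl rfl)] at hc
    exact lev_nb_wall_to hA (dA_wall hA (Or.inl rfl)) hc
  · exact lev_nb_flat hA (Or.inl rfl)

/-- Consecutive flat faces have the same normal. -/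
theorem flat_nb {A : Face} (hA : ¬ Wall A) (hB : ¬ Wall (nb P true eCan A Hd.N)) :
    (nb P true eCan A Hd.N).2 = A.2 := by
  obtain ⟨v, d⟩ := A
  have hp := perp_dirH true _ _ (perp_eCan (v, d)) Hd.N
  have key : ∀ d t : Dir, Dir.perp d t = true → d.axis = 2 → t.axis ≠ 2 := by decide
  have hd : d.axis = 2 := by
    unfold Wall at hA
    simpa using hA
  have ht := key _ _ hp hd
  unfold nb at hB ⊢
  rcases nbr_cases P v d (dA true eCan (v, d) Hd.N) with ⟨-, e⟩ | ⟨-, -, e⟩ | ⟨-, -, e⟩
  · rw [e] at hB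
    exact absurd (show ((dA true eCan (v, d) Hd.N).neg).axis ≠ 2 by rw [neg_axis]; exact ht) hB
  · rw [e]
  · rw [e] at hB
    exact absurd ht hB

/-- Consecutive walls in one column have the same normal. -/
theorem wall_nb {A : Face} (hA : Wall A) (hB : Wall (nb P true eCan A Hd.N)) :
    (nb P true eCan A Hd.N).2 = A.2 := by
  obtain ⟨v, d⟩ := A
  have h1 := dA_wall hA (Or.inl rfl : Hd.N = Hd.N ∨ Hd.N = Hd.S)
  have key : ∀ t : Dir, (t = Dir.pz ∨ t = Dir.nz) → t.axis = 2 ∧ t.neg.axis = 2 := by decide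
  obtain ⟨k1, k2⟩ := key _ h1
  unfold nb at hB ⊢
  rcases nbr_cases P v d (dA true eCan (v, d) Hd.N) with ⟨-, e⟩ | ⟨-, -, e⟩ | ⟨-, -, e⟩
  · rw [e] at hB
    exact absurd k2 hB
  · rw [e]
  · rw [e] at hB
    exact absurd k1 hB

/-- The direction of a flat face and of its level give the same north. -/
theorem dA_congr {A B : Face} (h1 : A.2 = B.2) (h2 : lev A = lev B) (h : Hd) :
    dA true eCan A h = dA true eCan B h := by
  unfold dA eCan
  rw [h1, h2]

theorem exists_column_bot (H : CanCol P c) {F0 : Face} (hF : IsFace P F0)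
    (hbot : ¬ Cmp P true eCan F0 Hd.S) :
    ∃ (S : Strip) (q r : ℕ), Column P c S q r (it P F0) := by
  classical
  have hN := noRing P hF
  set n0 := Nat.find hN with hn0
  have htop : ¬ Cmp P true eCan (it P F0 n0) Hd.N := Nat.find_spec hN
  have hcmp : ∀ i, i < n0 → Cmp P true eCan (it P F0 i) Hd.N := by
    intro i hi
    have := Nat.find_min hN hi
    exact not_not.1 this
  have hface : ∀ i, IsFace P (it P F0 i) := it_face hF
  have hw0 : Wall F0 := by
    by_contra hw
    exact hbot (cmp_flat hw (Or.inr rfl))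
  have hpos : 0 < n0 := by
    rcases Nat.eq_zero_or_pos n0 with h | h
    · exfalso
      rw [h] at htop
      rcases wall_cmp (P := P) hw0 with ⟨a, -⟩ | ⟨-, a⟩
      · exact htop a
      · exact hbot a
    · exact h
  have hwn : Wall (it P F0 n0) := by
    by_contra hw
    exact htop (cmp_flat hw (Or.inl rfl))
  have hlev : ∀ i, i ≤ n0 → lev (it P F0 i) = lev F0 := by
    intro i
    induction i with
    | zero => intro _; rfl
    | succ i ih =>
      intro hi
      rw [it_succ, lev_nb (hcmp i (by omega)), ih (by omega)]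
  have hflat : ∀ i, 0 < i → i < n0 → ¬ Wall (it P F0 i) := by
    intro i h1 h2 hw
    obtain ⟨j, rfl⟩ : ∃ j, i = j + 1 := ⟨i - 1, by omega⟩
    have hS : Cmp P true eCan (it P F0 (j + 1)) Hd.S := by
      rw [it_succ]
      exact (Cmp.back (hface j) (perp_eCan _) (hcmp j (by omega))).1
    rcases wall_cmp (P := P) hw with ⟨-, a⟩ | ⟨a, -⟩
    · exact a hS
    · exact a (hcmp _ h2)
  set k := lev F0 with hk
  -- corners
  have hnb : ∀ i, i < n0 → cr true eCan (it P F0 (i + 1)) Hd.S Hd.E =
      cr true eCan (it P F0 i) Hd.N Hd.E ∧ cr true eCan (it P F0 (i + 1)) Hd.S Hd.W =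
      cr true eCan (it P F0 i) Hd.N Hd.W := by
    intro i hi
    rw [it_succ]
    exact side_corners (perp_eCan _) (perp_eCan _) (hcmp i hi)
  set w := dA true eCan F0 Hd.N with hw
  set w' := dA true eCan (it P F0 n0) Hd.N with hw'
  have hwv : w = Dir.pz ∨ w = Dir.nz := dA_wall hw0 (Or.inl rfl)
  have hwv' : w' = Dir.pz ∨ w' = Dir.nz := dA_wall hwn (Or.inl rfl)
  set P1 := cr true eCan (it P F0 1) Hd.S Hd.E with hP1
  have hP1' : P1 = cr true eCan F0 Hd.N Hd.E := (hnb 0 hpos).1
  have hP1z : P1.2.2 = k := by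
    rw [hP1', cr_z_wall hw0 (Or.inl rfl)]
    exact (cmp_wall hw0 (Or.inl rfl)).1 (hcmp 0 hpos)
  -- the direction of the flats
  set up1 : Bool := decide ((it P F0 1).2 = Dir.pz) with hup
  set s : ℤ := if up1 then -1 else 1 with hs
  have hs1 : s = 1 ∨ s = -1 := by
    rw [hs]; split_ifs
    · exact Or.inr rfl
    · exact Or.inl rfl
  have hnorm : ∀ i, 0 < i → i < n0 → (it P F0 i).2 = (it P F0 1).2 := by
    intro i
    induction i with
    | zero => intro h; omega
    | succ i ih =>
      intro _ h2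
      rcases Nat.eq_zero_or_pos i with rfl | h3
      · rfl
      · rw [← ih h3 (by omega), it_succ]
        refine flat_nb (hflat i h3 (by omega)) ?_
        rw [← it_succ]
        exact hflat _ (by omega) h2
  have hdir : ∀ i, 0 < i → i < n0 → xc k (dA true eCan (it P F0 i) Hd.N).vec = 0 ∧
      xc (k + 1) (dA true eCan (it P F0 i) Hd.N).vec = s ∧
      (dA true eCan (it P F0 i) Hd.N).vec.2.2 = 0 := by
    intro i h1 h2
    rw [dA_flat (hflat i h1 h2), hnorm i h1 h2, hlev i h2.le]
    by_cases hu : (it P F0 1).2 = Dir.pz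
    · rw [if_pos hu]
      have : s = -1 := by rw [hs, hup, if_pos (by simpa using hu)]
      rw [this, xc_neg, xc_neg, xc_dk1, xc_dk, Dir.vec_neg]
      refine ⟨by ring, rfl, ?_⟩
      have := dk_z (k + 1)
      simp [this]
    · rw [if_neg hu]
      have : s = 1 := by rw [hs, hup, if_neg (by simpa using hu)]
      rw [this, xc_dk1, xc_dk]
      exact ⟨rfl, rfl, dk_z _⟩
  -- coordinates of the south-east corners
  have hcoord : ∀ i, 1 ≤ i → i ≤ n0 →
      xc k (cr true eCan (it P F0 i) Hd.S Hd.E) = xc k P1 ∧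
      xc (k + 1) (cr true eCan (it P F0 i) Hd.S Hd.E) = xc (k + 1) P1 + s * ((i : ℤ) - 1) ∧
      (cr true eCan (it P F0 i) Hd.S Hd.E).2.2 = k := by
    intro i
    induction i with
    | zero => intro h; omega
    | succ i ih =>
      intro _ h2
      rcases Nat.eq_zero_or_pos i with rfl | h3
      · refine ⟨rfl, ?_, hP1z⟩
        push_cast
        rw [← hP1]
        ring
      · obtain ⟨a1, a2, a3⟩ := ih h3 (by omega)
        obtain ⟨b1, b2, b3⟩ := hdir i h3 (by omega)
        rw [(hnb i (by omega)).1, cr_N, xc_add, xc_add, a1, a2, b1, b2]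
        refine ⟨by ring, by push_cast; ring, ?_⟩
        rw [Prod.snd_add, Prod.snd_add, a3, b3]
        ring
  set y0 := xc (k + 1) P1 with hy0
  set y1 := y0 + s * ((n0 : ℤ) - 1) with hy1
  have hok : y0 = y1 → decide (w = Dir.nz) ≠ decide (w' = Dir.pz) := by
    intro hy
    have hn1 : n0 = 1 := by
      rw [hy1] at hy
      rcases hs1 with h | h <;> rw [h] at hy <;> omega
    have h1 : Wall (nb P true eCan F0 Hd.N) := by
      have := hwn
      rw [hn1, it_succ, it_zero] at this
      exact this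
    have h2 := wall_nb hw0 h1
    have h3 : w' = w := by
      rw [hw', hw, hn1, it_succ, it_zero]
      refine dA_congr h2 ?_ _
      exact lev_nb (hcmp 0 hpos)
    rw [h3]
    rcases hwv with h | h <;> rw [h] <;> decide
  let S : Strip := ⟨k, xc k P1, y0, y1, decide (w = Dir.nz), decide (w' = Dir.pz), hok⟩
  have hSn : S.n = n0 + 1 := by
    show (y1 - y0).natAbs + 2 = n0 + 1
    rw [hy1]
    rcases hs1 with h | h <;> rw [h] <;> omega
  have hsg : ∀ i : ℕ, 1 ≤ i → i ≤ n0 → S.sg * ((i : ℤ) - 1) = s * ((i : ℤ) - 1) := by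
    intro i h1 h2
    show (if y0 ≤ y1 then (1 : ℤ) else -1) * ((i : ℤ) - 1) = s * ((i : ℤ) - 1)
    rcases Nat.lt_or_ge 1 i with h3 | h3
    · have h4 : (1 : ℤ) ≤ (n0 : ℤ) - 1 := by omega
      rcases hs1 with h | h
      · rw [if_pos (by rw [hy1, h]; linarith), h]
      · rw [if_neg (by rw [hy1, h]; linarith), h]
    · have : i = 1 := by omega
      rw [this]; norm_num
  -- the corners in terms of the strip
  have hE : ∀ i, i ≤ n0 → cr true eCan (it P F0 i) Hd.S Hd.E = S.vx 0 i := by
    intro i hi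
    unfold Strip.vx
    rcases Nat.eq_zero_or_pos i with rfl | h1
    · rw [if_pos rfl, it_zero]
      have e : P1 = cr true eCan F0 Hd.S Hd.E + w.vec := by rw [hP1', cr_N]
      symm
      refine ptk_eq ?_ ?_ ?_
      · show xc k (cr true eCan F0 Hd.S Hd.E) = xc k P1 + 0
        rw [e, xc_add, xc_vert k hwv]
        ring
      · show xc (k + 1) (cr true eCan F0 Hd.S Hd.E) = xc (k + 1) P1
        rw [e, xc_add, xc_vert (k + 1) hwv]
        ring
      · show (cr true eCan F0 Hd.S Hd.E).2.2 = (if decide (w = Dir.nz) = true then k + 1 else k - 1)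
        have h2 : P1.2.2 = (cr true eCan F0 Hd.S Hd.E).2.2 + w.vec.2.2 := by rw [e]; rfl
        rcases hwv with h | h
        · rw [h] at h2 ⊢
          have : (Dir.pz.vec.2.2 : ℤ) = 1 := rfl
          rw [if_neg (by decide)]
          omega
        · rw [h] at h2 ⊢
          have : (Dir.nz.vec.2.2 : ℤ) = -1 := rfl
          rw [if_pos (by decide)]
          omega
    · rw [if_neg (by omega), if_pos (by rw [hSn]; omega)]
      obtain ⟨a1, a2, a3⟩ := hcoord i h1 hi
      symm
      refine ptk_eq ?_ ?_ a3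
      · show xc k _ = xc k P1 + 0
        rw [a1, add_zero]
      · show xc (k + 1) _ = y0 + S.sg * ((i : ℤ) - 1)
        rw [a2, hsg i h1 hi]
  have hEn : cr true eCan (it P F0 n0) Hd.N Hd.E = S.vx 0 (n0 + 1) := by
    unfold Strip.vx
    rw [if_neg (by omega), if_neg (by rw [hSn]; omega)]
    obtain ⟨a1, a2, a3⟩ := hcoord n0 hpos le_rfl
    symm
    rw [cr_N]
    refine ptk_eq ?_ ?_ ?_
    · show xc k _ = xc k P1 + 0
      rw [xc_add, a1, xc_vert k hwv']
    · show xc (k + 1) _ = y0 + s * ((n0 : ℤ) - 1)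
      rw [xc_add, a2, xc_vert (k + 1) hwv']
      ring
    · show _ = (if decide (w' = Dir.pz) = true then k + 1 else k - 1)
      rw [Prod.snd_add, Prod.snd_add, a3]
      change k + w'.vec.2.2 = _
      rcases hwv' with h | h
      · rw [h, if_pos (by decide)]; rfl
      · rw [h, if_neg (by decide)]; rfl
  -- the west side
  have hsh : ∀ i, i ≤ n0 + 1 → S.vx 1 i = S.vx 0 i + (dk k).vec := by
    intro i hi
    have hgen : ∀ y z : ℤ, ptk k (xc k P1 + 1) y z = ptk k (xc k P1 + 0) y z + (dk k).vec := by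
      intro y z
      have key : ∀ x y z : ℤ, xc k (ptk k x y z) = x ∧ xc (k + 1) (ptk k x y z) = y ∧
          (ptk k x y z).2.2 = z := by
        intro x y z
        rcases mod4 k with h | h | h | h
        · have h' : (k + 1) % 4 = 1 := by omega
          simp [ptk, xc, h, h']
        · have h' : (k + 1) % 4 = 2 := by omega
          simp [ptk, xc, h, h']
        · have h' : (k + 1) % 4 = 3 := by omega
          simp [ptk, xc, h, h']
        · have h' : (k + 1) % 4 = 0 := by omega
          simp [ptk, xc, h, h']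
      obtain ⟨a1, a2, a3⟩ := key (xc k P1 + 0) y z
      refine ptk_eq ?_ ?_ ?_
      · rw [xc_add, a1, xc_dk]; ring
      · rw [xc_add, a2, xc_dk']; ring
      · rw [Prod.snd_add, Prod.snd_add, a3, dk_z]; ring
    unfold Strip.vx
    split_ifs
    · exact hgen _ _
    · exact hgen _ _
    · exact hgen _ _
  have hW : ∀ i, i ≤ n0 → cr true eCan (it P F0 i) Hd.S Hd.W = S.vx 1 i := by
    intro i hi
    rw [cr_W, hE i hi, hsh i (by omega), hlev i hi]
  have hWn : cr true eCan (it P F0 n0) Hd.N Hd.W = S.vx 1 (n0 + 1) := by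
    rw [cr_W, hEn, hsh _ le_rfl, hlev n0 le_rfl]
  have hneE : ∀ i, i ≤ n0 → cr true eCan (it P F0 i) Hd.N Hd.E = S.vx 0 (i + 1) := by
    intro i hi
    rcases Nat.lt_or_ge i n0 with h | h
    · rw [← (hnb i h).1]
      exact hE _ (by omega)
    · have : i = n0 := by omega
      rw [this]; exact hEn
  have hnwW : ∀ i, i ≤ n0 → cr true eCan (it P F0 i) Hd.N Hd.W = S.vx 1 (i + 1) := by
    intro i hi
    rcases Nat.lt_or_ge i n0 with h | h
    · rw [← (hnb i h).2]
      exact hW _ (by omega)
    · have : i = n0 := by omega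
      rw [this]; exact hWn
  -- the colours
  obtain ⟨q, hq, hcE⟩ := bool_seq (fun i => c (S.vx 0 i)) (n0 + 1)
    (by
      have := H.bot hF (Or.inl rfl : Hd.E = Hd.E ∨ Hd.E = Hd.W) hbot
      rw [← hE 0 (by omega)]
      exact this)
    (by
      have := H.top (hface n0) (Or.inl rfl : Hd.E = Hd.E ∨ Hd.E = Hd.W) htop
      rw [← hneE n0 le_rfl]
      exact this)
    (by
      intro i hi h
      rw [← hneE i (by omega)]
      rw [← hE i (by omega)] at h
      exact H.mono (hface i) (Or.inl rfl) h)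
  obtain ⟨r, hr, hcW⟩ := bool_seq (fun i => c (S.vx 1 i)) (n0 + 1)
    (by
      have := H.bot hF (Or.inr rfl : Hd.W = Hd.E ∨ Hd.W = Hd.W) hbot
      rw [← hW 0 (by omega)]
      exact this)
    (by
      have := H.top (hface n0) (Or.inr rfl : Hd.W = Hd.E ∨ Hd.W = Hd.W) htop
      rw [← hnwW n0 le_rfl]
      exact this)
    (by
      intro i hi h
      rw [← hnwW i (by omega)]
      rw [← hW i (by omega)] at h
      exact H.mono (hface i) (Or.inr rfl) h)
  refine ⟨S, q, r, ⟨?_, ?_, ?_, ?_, ?_, ?_, ?_, ?_, ?_, ?_, ?_, ?_, ?_⟩⟩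
  · intro i _; exact hface i
  · intro i _; exact (it_succ F0 i).symm
  · intro i hi; rw [hSn] at hi; exact hcmp i (by omega)
  · rw [hSn, Nat.add_sub_cancel]; exact htop
  · exact hbot
  · intro i hi; rw [hSn] at hi; exact hE i (by omega)
  · intro i hi; rw [hSn] at hi; exact hneE i (by omega)
  · intro i hi; rw [hSn] at hi; exact hW i (by omega)
  · intro i hi; rw [hSn] at hi; exact hnwW i (by omega)
  · rw [hSn]; exact hq
  · rw [hSn]; exact hr
  · intro i hi; rw [hSn] at hi; exact hcE i hi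
  · intro i hi; rw [hSn] at hi; exact hcW i hi

end Pool.Agent.Helper84.SURF
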