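import Pool.Agent.Helper24.GEO.Defs
import Pool.Agent.Helper14.LD.Cols

/-!
# Coordinates of the corners of a column (project SURF, MP_409f7f_co)
-/

set_option autoImplicit false

namespace Pool.Agent.Helper84.SURF

open Pool.Agent.Helper17.UF Pool.Agent.Helper84.LD Pool.Agent.Helper53.GP Pool.Agent.Helper24.GEO
  Relation

theorem ptk_xc (k : ℤ) (p : Cube) : ptk k (xc k p) (xc (k + 1) p) p.2.2 = p := by
  obtain ⟨x, y, z⟩ := p
  rcases mod4 k with h | h | h | h
  · have h' : (k + 1) % 4 = 1 := by omega
    simp [ptk, xc, h, h']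
  · have h' : (k + 1) % 4 = 2 := by omega
    simp [ptk, xc, h, h']
  · have h' : (k + 1) % 4 = 3 := by omega
    simp [ptk, xc, h, h']
  · have h' : (k + 1) % 4 = 0 := by omega
    simp [ptk, xc, h, h']

theorem ptk_eq {k x y z : ℤ} {p : Cube} (h1 : xc k p = x) (h2 : xc (k + 1) p = y)
    (h3 : p.2.2 = z) : ptk k x y z = p := by
  rw [← h1, ← h2, ← h3, ptk_xc]

theorem xc_add (k : ℤ) (p q : Cube) : xc k (p + q) = xc k p + xc k q := by
  obtain ⟨x, y, z⟩ := p
  obtain ⟨x', y', z'⟩ := q
  unfold xc
  simp only [Prod.mk_add_mk]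
  split_ifs <;> ring

theorem xc_dk (k : ℤ) : xc k (dk k).vec = 1 := by
  rcases mod4 k with h | h | h | h
  · rw [dk_0 h]; simp [xc, h, Dir.vec]
  · rw [dk_1 h]; simp [xc, h, Dir.vec]
  · rw [dk_2 h]; simp [xc, h, Dir.vec]
  · rw [dk_3 h]; simp [xc, h, Dir.vec]

theorem xc_dk' (k : ℤ) : xc (k + 1) (dk k).vec = 0 := by
  rcases mod4 k with h | h | h | h
  · have h' : (k + 1) % 4 = 1 := by omega
    rw [dk_0 h]; simp [xc, h', Dir.vec]
  · have h' : (k + 1) % 4 = 2 := by omega
    rw [dk_1 h]; simp [xc, h', Dir.vec]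
  · have h' : (k + 1) % 4 = 3 := by omega
    rw [dk_2 h]; simp [xc, h', Dir.vec]
  · have h' : (k + 1) % 4 = 0 := by omega
    rw [dk_3 h]; simp [xc, h', Dir.vec]

theorem xc_dk1 (k : ℤ) : xc k (dk (k + 1)).vec = 0 := by
  rcases mod4 k with h | h | h | h
  · have h' : (k + 1) % 4 = 1 := by omega
    rw [dk_1 h']; simp [xc, h, Dir.vec]
  · have h' : (k + 1) % 4 = 2 := by omega
    rw [dk_2 h']; simp [xc, h, Dir.vec]
  · have h' : (k + 1) % 4 = 3 := by omega
    rw [dk_3 h']; simp [xc, h, Dir.vec]
  · have h' : (k + 1) % 4 = 0 := by omega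
    rw [dk_0 h']; simp [xc, h, Dir.vec]

theorem xc_vert (k : ℤ) {t : Dir} (ht : t = Dir.pz ∨ t = Dir.nz) : xc k t.vec = 0 := by
  rcases ht with rfl | rfl <;> simp [xc, Dir.vec]

theorem dk_z (k : ℤ) : (dk k).vec.2.2 = 0 := by
  rcases mod4 k with h | h | h | h
  · rw [dk_0 h]; rfl
  · rw [dk_1 h]; rfl
  · rw [dk_2 h]; rfl
  · rw [dk_3 h]; rfl

theorem xc_neg (k : ℤ) (t : Dir) : xc k t.neg.vec = - xc k t.vec := by
  cases t <;> simp [xc, Dir.vec, Dir.neg] <;> split_ifs <;> simp

/-- The west corners lie in the direction of the level from the east corners. -/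
theorem cr_W (A : Face) (h : Hd) :
    cr true eCan A h Hd.W = cr true eCan A h Hd.E + (dk (lev A)).vec := by
  have e1 : dA true eCan A Hd.E = (dk (lev A)).neg := rfl
  have e2 : dA true eCan A Hd.W = dk (lev A) := by
    have : ∀ d e : Dir, dirH true d e Hd.W = e.neg := by decide
    unfold dA
    rw [this, eCan, Dir.neg_neg]
  unfold cr crn
  rw [e1, e2, ← pp_neg (dk (lev A))]
  abel

/-- The north corners lie in the direction of the north from the south corners. -/
theorem cr_N (A : Face) (h : Hd) :
    cr true eCan A Hd.N h = cr true eCan A Hd.S h + (dA true eCan A Hd.N).vec := by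
  have e1 : dA true eCan A Hd.S = (dA true eCan A Hd.N).neg := dirH_SN _ _
  unfold cr crn
  rw [e1, ← pp_neg (dA true eCan A Hd.N)]
  abel

/-- North on a flat face. -/
theorem dA_flat {A : Face} (hA : ¬ Wall A) : dA true eCan A Hd.N =
    if A.2 = Dir.pz then (dk (lev A + 1)).neg else dk (lev A + 1) := by
  obtain ⟨v, d⟩ := A
  have hd : d.axis = 2 := by
    unfold Wall at hA
    simpa using hA
  unfold dA eCan
  simp only
  generalize lev (v, d) = k
  have key : ∀ d : Dir, d.axis = 2 → d = Dir.pz ∨ d = Dir.nz := by decide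
  have hd' := key d hd
  clear hA hd key
  rcases mod4 k with h | h | h | h
  · have h' : (k + 1) % 4 = 1 := by omega
    rw [dk_0 h, dk_1 h']
    rcases hd' with rfl | rfl <;> rfl
  · have h' : (k + 1) % 4 = 2 := by omega
    rw [dk_1 h, dk_2 h']
    rcases hd' with rfl | rfl <;> rfl
  · have h' : (k + 1) % 4 = 3 := by omega
    rw [dk_2 h, dk_3 h']
    rcases hd' with rfl | rfl <;> rfl
  · have h' : (k + 1) % 4 = 0 := by omega
    rw [dk_3 h, dk_0 h']
    rcases hd' with rfl | rfl <;> rfl

theorem pp_z0 : ∀ t : Dir, t.axis ≠ 2 → (pp t).2.2 = 0 := by decide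

theorem crn_z' (A : Face) (t w : Dir) :
    (crn A t w).2.2 = A.1.2.2 + (pp A.2).2.2 + (pp t).2.2 + (pp w).2.2 := rfl

/-- Height of the corners of a wall. -/
theorem cr_z_wall {A : Face} (hA : Wall A) {h k : Hd} (hk : k = Hd.E ∨ k = Hd.W) :
    (cr true eCan A h k).2.2 = ht A.1 (dA true eCan A h) := by
  have h1 := (lateral_axis (A := A) hk).2
  unfold cr ht
  rw [crn_z', pp_z0 _ h1, pp_z0 _ hA]
  ring

/-- Bool sequences that increase. -/
theorem bool_seq (f : ℕ → Bool) : ∀ n : ℕ, f 0 = false → f n = true →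
    (∀ i < n, f i = true → f (i + 1) = true) → ∃ q < n, ∀ i ≤ n, f i = decide (q < i) := by
  intro n
  induction n with
  | zero => intro h0 h1; rw [h0] at h1; exact Bool.noConfusion h1
  | succ n ih =>
    intro h0 h1 hm
    cases hn : f n with
    | true =>
      obtain ⟨q, hq, hf⟩ := ih h0 hn (fun i hi => hm i (by omega))
      refine ⟨q, by omega, fun i hi => ?_⟩
      rcases Nat.lt_or_ge i (n + 1) with h | h
      · exact hf i (by omega)
      · have : i = n + 1 := by omega
        rw [this, h1]
        simp only [Bool.true_eq, decide_eq_true_eq]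
        omega
    | false =>
      refine ⟨n, by omega, fun i hi => ?_⟩
      have hall : ∀ j ≤ n, f (n - j) = false := by
        intro j
        induction j with
        | zero => intro _; exact hn
        | succ j ihj =>
          intro hj
          by_contra hc
          rw [Bool.not_eq_false] at hc
          have := hm (n - (j + 1)) (by omega) hc
          rw [show n - (j + 1) + 1 = n - j by omega, ihj (by omega)] at this
          exact Bool.noConfusion this
      rcases Nat.lt_or_ge i (n + 1) with h | h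
      · have := hall (n - i) (by omega)
        rw [show n - (n - i) = i by omega] at this
        rw [this]
        symm
        rw [decide_eq_false_iff_not]
        omega
      · have : i = n + 1 := by omega
        rw [this, h1]
        simp only [Bool.true_eq, decide_eq_true_eq]
        omega

end Pool.Agent.Helper84.SURF
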