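import Pool.Agent.Helper53.GP.Sign
import Pool.Agent.Helper84.SURF.Geo

/-!
# Elementary form of the colour condition (project SURF, MP_409f7f_co)

At height `z` the direction `dz z` is `+x, +y, -x, -y` for `z = 0, 1, 2, 3` modulo 4. A set `W` of
lattice points (the white ones) is good for the polycube `P` if
* a corner `p` of a vertical boundary square whose outer normal is `dz p_z` or its opposite is white
  exactly if the normal is `dz p_z`;
* on the top squares going against `dz (z + 1)` and on the bottom squares going along `dz (z + 1)`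
  keeps white.
-/

set_option autoImplicit false

namespace Pool.Agent.Helper84.SURF

open Pool.Agent.Helper17.UF Pool.Agent.Helper84.LD Pool.Agent.Helper53.GP

/-- The direction of the height `z`: `+x, +y, -x, -y` for `z = 0, 1, 2, 3` modulo 4. -/
abbrev dz (z : ℤ) : Dir := dk z

/-- The lattice point `p` is a corner of the square `A = (v, d)` (the square of the cube `v` with the outer
normal `d`). -/
def Corner (A : Face) (p : Cube) : Prop :=
  (p.1 = A.1.1 ∨ p.1 = A.1.1 + 1) ∧ (p.2.1 = A.1.2.1 ∨ p.2.1 = A.1.2.1 + 1) ∧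
  (p.2.2 = A.1.2.2 ∨ p.2.2 = A.1.2.2 + 1) ∧
  match A.2 with
  | Dir.px => p.1 = A.1.1 + 1
  | Dir.nx => p.1 = A.1.1
  | Dir.py => p.2.1 = A.1.2.1 + 1
  | Dir.ny => p.2.1 = A.1.2.1
  | Dir.pz => p.2.2 = A.1.2.2 + 1
  | Dir.nz => p.2.2 = A.1.2.2

/-- A good set of white points. -/
structure Good (P : Finset Cube) (W : Set Cube) : Prop where
  wall : ∀ (A : Face) (p : Cube), IsFace P A → Corner A p →
    (A.2 = dz p.2.2 ∨ A.2 = (dz p.2.2).neg) → (p ∈ W ↔ A.2 = dz p.2.2)
  up : ∀ v p : Cube, IsFace P (v, Dir.pz) → Corner (v, Dir.pz) p →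
    Corner (v, Dir.pz) (p + (dz (p.2.2 + 1)).vec) → p + (dz (p.2.2 + 1)).vec ∈ W → p ∈ W
  down : ∀ v p : Cube, IsFace P (v, Dir.nz) → Corner (v, Dir.nz) p →
    Corner (v, Dir.nz) (p + (dz (p.2.2 + 1)).vec) → p ∈ W → p + (dz (p.2.2 + 1)).vec ∈ W

/-- No vertical lattice plane contains boundary squares with opposite outer normals. -/
def GeneralPosition (P : Finset Cube) : Prop :=
  (∀ v w : Cube, IsFace P (v, Dir.px) → IsFace P (w, Dir.nx) → v.1 + 1 ≠ w.1) ∧
  ∀ v w : Cube, IsFace P (v, Dir.py) → IsFace P (w, Dir.ny) → v.2.1 + 1 ≠ w.2.1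

/-- The corners of a square in the directions `t`, `w`. -/
theorem corner_crn {A : Face} {t w : Dir} (h1 : Dir.perp A.2 t = true) (h2 : Dir.perp A.2 w = true)
    (h3 : Dir.perp t w = true) : Corner A (crn A t w) := by
  obtain ⟨⟨x, y, z⟩, d⟩ := A
  have key : ∀ d t w : Dir, Dir.perp d t = true → Dir.perp d w = true → Dir.perp t w = true →
      ((pp d).1 + (pp t).1 + (pp w).1 = 0 ∨ (pp d).1 + (pp t).1 + (pp w).1 = 1) ∧
      ((pp d).2.1 + (pp t).2.1 + (pp w).2.1 = 0 ∨ (pp d).2.1 + (pp t).2.1 + (pp w).2.1 = 1) ∧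
      ((pp d).2.2 + (pp t).2.2 + (pp w).2.2 = 0 ∨ (pp d).2.2 + (pp t).2.2 + (pp w).2.2 = 1) ∧
      (d = Dir.px → (pp d).1 + (pp t).1 + (pp w).1 = 1) ∧
      (d = Dir.nx → (pp d).1 + (pp t).1 + (pp w).1 = 0) ∧
      (d = Dir.py → (pp d).2.1 + (pp t).2.1 + (pp w).2.1 = 1) ∧
      (d = Dir.ny → (pp d).2.1 + (pp t).2.1 + (pp w).2.1 = 0) ∧
      (d = Dir.pz → (pp d).2.2 + (pp t).2.2 + (pp w).2.2 = 1) ∧
      (d = Dir.nz → (pp d).2.2 + (pp t).2.2 + (pp w).2.2 = 0) := by decide
  obtain ⟨k1, k2, k3, k4, k5, k6, k7, k8, k9⟩ := key d t w h1 h2 h3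
  have e1 : (crn ((x, y, z), d) t w).1 = x + ((pp d).1 + (pp t).1 + (pp w).1) := by
    rw [crn_x]; ring
  have e2 : (crn ((x, y, z), d) t w).2.1 = y + ((pp d).2.1 + (pp t).2.1 + (pp w).2.1) := by
    rw [crn_y]; ring
  have e3 : (crn ((x, y, z), d) t w).2.2 = z + ((pp d).2.2 + (pp t).2.2 + (pp w).2.2) := by
    rw [crn_z]; ring
  refine ⟨?_, ?_, ?_, ?_⟩
  · rw [e1]; rcases k1 with h | h <;> rw [h]
    · left; simp
    · right; rfl
  · rw [e2]; rcases k2 with h | h <;> rw [h]
    · left; simp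
    · right; rfl
  · rw [e3]; rcases k3 with h | h <;> rw [h]
    · left; simp
    · right; rfl
  · cases d
    · show _ = _; rw [e1, k4 rfl]
    · show _ = _; rw [e1, k5 rfl]; simp
    · show _ = _; rw [e2, k6 rfl]
    · show _ = _; rw [e2, k7 rfl]; simp
    · show _ = _; rw [e3, k8 rfl]
    · show _ = _; rw [e3, k9 rfl]; simp

theorem corner_cr (A : Face) {h k : Hd} (hh : h = Hd.N ∨ h = Hd.S) (hk : k = Hd.E ∨ k = Hd.W) :
    Corner A (cr true eCan A h k) := by
  have key : ∀ (d e : Dir) (h k : Hd), Dir.perp d e = true → (h = Hd.N ∨ h = Hd.S) →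
      (k = Hd.E ∨ k = Hd.W) → Dir.perp (dirH true d e h) (dirH true d e k) = true := by decide
  unfold cr
  exact corner_crn (perp_dirH true _ _ (perp_eCan A) h) (perp_dirH true _ _ (perp_eCan A) k)
    (key _ _ _ _ (perp_eCan A) hh hk)

theorem Good.canCol {P : Finset Cube} {W : Set Cube} [DecidablePred (· ∈ W)] (H : Good P W) :
    CanCol P (fun v => decide (v ∈ W)) where
  wall := by
    intro A hA hw t w ht1 hp hw2 hne
    have hperp1 : Dir.perp A.2 t = true := by
      have key : ∀ d t : Dir, d.axis ≠ 2 → (t = Dir.pz ∨ t = Dir.nz) → Dir.perp d t = true := by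
        decide
      exact key _ _ hw ht1
    have hperp2 : Dir.perp t w = true := by
      have key : ∀ t w : Dir, w.axis ≠ 2 → (t = Dir.pz ∨ t = Dir.nz) → Dir.perp t w = true := by
        decide
      exact key _ _ hw2 ht1
    have hz : (crn A t w).2.2 = ht A.1 t := by
      rw [crn_z', pp_z0 _ hw, pp_z0 _ hw2]
      unfold ht
      ring
    have hc := ht_cases (v := A.1) ht1
    have hpar : A.2 = dk (ht A.1 t) ∨ A.2 = (dk (ht A.1 t)).neg := by
      obtain ⟨v, d⟩ := A
      simp only at hc hne ⊢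
      rcases axis_cases d with h | h | h
      · have hl := lev_wall_x (v := v) h
        have hpar : ht v t % 2 = 0 := by
          rcases hc with h1 | h1 <;> rcases hl.2 with h2 | h2 <;> omega
        have h4 : ht v t % 4 = 0 ∨ ht v t % 4 = 2 := by omega
        have key : ∀ d : Dir, d.axis = 0 → d = Dir.px ∨ d = Dir.nx := by decide
        rcases h4 with h4 | h4
        · rw [dk_0 h4]; exact key d h
        · rw [dk_2 h4]; exact (key d h).symm
      · have hl := lev_wall_y (v := v) h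
        have hpar : ht v t % 2 = 1 := by
          rcases hc with h1 | h1 <;> rcases hl.2 with h2 | h2 <;> omega
        have h4 : ht v t % 4 = 1 ∨ ht v t % 4 = 3 := by omega
        have key : ∀ d : Dir, d.axis = 1 → d = Dir.py ∨ d = Dir.ny := by decide
        rcases h4 with h4 | h4
        · rw [dk_1 h4]; exact key d h
        · rw [dk_3 h4]; exact (key d h).symm
      · exact absurd h hw
    have := H.wall A (crn A t w) hA (corner_crn hperp1 hp hperp2) (by rw [hz]; exact hpar)
    rw [hz] at this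
    exact decide_eq_decide.2 this
  flat := by
    intro A hA hw h hh
    simp only [decide_eq_true_eq]
    have hN := cr_N A h
    have hd := dA_flat hw
    have c1 := corner_cr A (Or.inl rfl : Hd.N = Hd.N ∨ Hd.N = Hd.S) hh
    have c2 := corner_cr A (Or.inr rfl : Hd.S = Hd.N ∨ Hd.S = Hd.S) hh
    obtain ⟨v, d⟩ := A
    have hd2 : d = Dir.pz ∨ d = Dir.nz := by
      have key : ∀ d : Dir, d.axis = 2 → d = Dir.pz ∨ d = Dir.nz := by decide
      apply key
      unfold Wall at hw
      simpa using hw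
    rcases hd2 with rfl | rfl
    · rw [if_pos rfl] at hd
      have hz : (cr true eCan (v, Dir.pz) Hd.N h).2.2 = lev (v, Dir.pz) := by
        rw [lev_pz]; exact c1.2.2.2
      have e : cr true eCan (v, Dir.pz) Hd.S h =
          cr true eCan (v, Dir.pz) Hd.N h + (dz ((cr true eCan (v, Dir.pz) Hd.N h).2.2 + 1)).vec := by
        rw [hz, hN, hd, Dir.vec_neg]
        abel
      rw [e] at c2 ⊢
      exact H.up v _ hA c1 c2
    · rw [if_neg (show ¬ Dir.nz = Dir.pz by decide)] at hd
      have hz : (cr true eCan (v, Dir.nz) Hd.S h).2.2 = lev (v, Dir.nz) := by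
        rw [lev_nz]; exact c2.2.2.2
      have e : cr true eCan (v, Dir.nz) Hd.N h =
          cr true eCan (v, Dir.nz) Hd.S h + (dz ((cr true eCan (v, Dir.nz) Hd.S h).2.2 + 1)).vec := by
        rw [hz, hN, hd]
      rw [e] at c1 ⊢
      exact H.down v _ hA c2 c1

/-- A polycube in general position has a good set. -/
theorem GeneralPosition.exists_good {P : Finset Cube} (H : GeneralPosition P) :
    ∃ W, Good P W := by
  classical
  obtain ⟨Hx, Hy⟩ := H
  -- signs of the planes
  let sx : ℤ → Prop := fun x => ∃ v : Cube, IsFace P (v, Dir.px) ∧ v.1 + 1 = x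
  let sy : ℤ → Prop := fun y => ∃ v : Cube, IsFace P (v, Dir.py) ∧ v.2.1 + 1 = y
  let col : Cube → Prop := fun p => if p.2.2 % 4 = 0 then sx p.1 else if p.2.2 % 4 = 1 then sy p.2.1
    else if p.2.2 % 4 = 2 then ¬ sx p.1 else ¬ sy p.2.1
  have hshift : ∀ p : Cube, col (p + (dz (p.2.2 + 1)).vec) ↔ col p := by
    intro p
    have hz : (p + (dz (p.2.2 + 1)).vec).2.2 = p.2.2 := by
      have := dk_z (p.2.2 + 1)
      rw [Prod.snd_add, Prod.snd_add]
      show p.2.2 + (dk (p.2.2 + 1)).vec.2.2 = p.2.2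
      rw [this, add_zero]
    show (if (p + (dz (p.2.2 + 1)).vec).2.2 % 4 = 0 then _ else _) ↔ _
    rw [hz]
    show (if p.2.2 % 4 = 0 then sx (p + (dz (p.2.2 + 1)).vec).1 else
      if p.2.2 % 4 = 1 then sy (p + (dz (p.2.2 + 1)).vec).2.1
      else if p.2.2 % 4 = 2 then ¬ sx (p + (dz (p.2.2 + 1)).vec).1
      else ¬ sy (p + (dz (p.2.2 + 1)).vec).2.1) ↔
      (if p.2.2 % 4 = 0 then sx p.1 else if p.2.2 % 4 = 1 then sy p.2.1
      else if p.2.2 % 4 = 2 then ¬ sx p.1 else ¬ sy p.2.1)
    rcases mod4 p.2.2 with h | h | h | h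
    · have e : (p + (dz (p.2.2 + 1)).vec).1 = p.1 := by
        rw [Prod.fst_add, show dz (p.2.2 + 1) = Dir.py from dk_1 (by omega)]
        simp [Dir.vec]
      rw [e, if_pos h, if_pos h]
    · have e : (p + (dz (p.2.2 + 1)).vec).2.1 = p.2.1 := by
        rw [Prod.snd_add, Prod.fst_add, show dz (p.2.2 + 1) = Dir.nx from dk_2 (by omega)]
        simp [Dir.vec]
      rw [e, if_neg (by omega), if_pos h, if_neg (by omega), if_pos h]
    · have e : (p + (dz (p.2.2 + 1)).vec).1 = p.1 := by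
        rw [Prod.fst_add, show dz (p.2.2 + 1) = Dir.ny from dk_3 (by omega)]
        simp [Dir.vec]
      rw [e, if_neg (by omega), if_neg (by omega), if_pos h, if_neg (by omega),
        if_neg (by omega), if_pos h]
    · have e : (p + (dz (p.2.2 + 1)).vec).2.1 = p.2.1 := by
        rw [Prod.snd_add, Prod.fst_add, show dz (p.2.2 + 1) = Dir.px from dk_0 (by omega)]
        simp [Dir.vec]
      rw [e, if_neg (by omega), if_neg (by omega), if_neg (by omega), if_neg (by omega),
        if_neg (by omega), if_neg (by omega)]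
  refine ⟨{p | col p}, ?_, ?_, ?_⟩
  · rintro ⟨v, d⟩ p hA hc hd
    change d = dz p.2.2 ∨ d = (dz p.2.2).neg at hd
    show (if p.2.2 % 4 = 0 then sx p.1 else if p.2.2 % 4 = 1 then sy p.2.1
      else if p.2.2 % 4 = 2 then ¬ sx p.1 else ¬ sy p.2.1) ↔ d = dz p.2.2
    have hxp : d = Dir.px → sx p.1 := fun h => by
      subst h; exact ⟨v, hA, hc.2.2.2.symm⟩
    have hxn : d = Dir.nx → ¬ sx p.1 := fun h => by
      subst h
      rintro ⟨w, hw, hw1⟩
      exact Hx w v hw hA (hw1.trans hc.2.2.2)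
    have hyp : d = Dir.py → sy p.2.1 := fun h => by
      subst h; exact ⟨v, hA, hc.2.2.2.symm⟩
    have hyn : d = Dir.ny → ¬ sy p.2.1 := fun h => by
      subst h
      rintro ⟨w, hw, hw1⟩
      exact Hy w v hw hA (hw1.trans hc.2.2.2)
    rcases mod4 p.2.2 with h | h | h | h
    · rw [if_pos h]
      rw [show dz p.2.2 = Dir.px from dk_0 h] at hd ⊢
      rcases hd with rfl | rfl
      · exact ⟨fun _ => rfl, fun _ => hxp rfl⟩
      · exact ⟨fun h1 => absurd h1 (hxn rfl), fun h1 => absurd h1 (by decide)⟩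
    · rw [if_neg (by omega), if_pos h]
      rw [show dz p.2.2 = Dir.py from dk_1 h] at hd ⊢
      rcases hd with rfl | rfl
      · exact ⟨fun _ => rfl, fun _ => hyp rfl⟩
      · exact ⟨fun h1 => absurd h1 (hyn rfl), fun h1 => absurd h1 (by decide)⟩
    · rw [if_neg (by omega), if_neg (by omega), if_pos h]
      rw [show dz p.2.2 = Dir.nx from dk_2 h] at hd ⊢
      rcases hd with rfl | rfl
      · exact ⟨fun _ => rfl, fun _ => hxn rfl⟩
      · exact ⟨fun h1 => absurd (hxp rfl) h1, fun h1 => absurd h1 (by decide)⟩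
    · rw [if_neg (by omega), if_neg (by omega), if_neg (by omega)]
      rw [show dz p.2.2 = Dir.ny from dk_3 h] at hd ⊢
      rcases hd with rfl | rfl
      · exact ⟨fun _ => rfl, fun _ => hyn rfl⟩
      · exact ⟨fun h1 => absurd (hyp rfl) h1, fun h1 => absurd h1 (by decide)⟩
  · intro v p _ _ _ h
    exact (hshift p).1 h
  · intro v p _ _ _ h
    exact (hshift p).2 h

end Pool.Agent.Helper84.SURF
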