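import Pool.Agent.Helper84.SURF.SymH

/-!
# The symmetries of the cubic lattice, elementary form (project SURF, MP_409f7f_co)
-/

set_option autoImplicit false

namespace Pool.Agent.Helper84.SURF

open Pool.Agent.Helper17.UF Pool.Agent.Helper84.LD Pool.Agent.Helper16.LD Pool.Agent.Helper53.GP
  Relation

/-- The symmetries of the cubic lattice, as maps of the cubes (given by their lower corners):
generated by translations, the cyclic permutation of the coordinates, the exchange of the first
two coordinates and the reflection of the first one (the cube `x..x+1` goes to `-x-1..-x`). -/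
inductive LatSym : (Cube → Cube) → Prop
  | one : LatSym fun v => v
  | shift {g : Cube → Cube} (a : Cube) (h : LatSym g) : LatSym fun v => g v + a
  | cyc {g : Cube → Cube} (h : LatSym g) : LatSym fun v => ((g v).2.1, (g v).2.2, (g v).1)
  | swap {g : Cube → Cube} (h : LatSym g) : LatSym fun v => ((g v).2.1, (g v).1, (g v).2.2)
  | refl {g : Cube → Cube} (h : LatSym g) :
      LatSym fun v => (-1 - (g v).1, (g v).2.1, (g v).2.2)

/-- The identity. -/
noncomputable def lone : LSym where
  g := Equiv.refl _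
  d := Equiv.refl _
  G := IsometryEquiv.refl _
  hg := fun _ _ => rfl
  hperp := fun _ _ => rfl
  hG := fun v => by
    show (fun x => x) '' unitCube v = unitCube v
    exact Set.image_id' _

/-- Real vectors. -/
noncomputable def rv (a : Cube) : E3 := !₂[(a.1 : ℝ), (a.2.1 : ℝ), (a.2.2 : ℝ)]

/-- Translations. -/
noncomputable def lshift (a : Cube) : LSym where
  g := Equiv.addRight a
  d := Equiv.refl _
  G := IsometryEquiv.addRight (rv a)
  hg := by
    intro v t
    show v + t.vec + a = v + a + t.vec
    abel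
  hperp := fun _ _ => rfl
  hG := by
    intro v
    ext x
    have e0 : ∀ y : E3, (IsometryEquiv.addRight (rv a)) y 0 = y 0 + a.1 := by
      intro y
      rw [IsometryEquiv.addRight_apply]
      rfl
    have e1 : ∀ y : E3, (IsometryEquiv.addRight (rv a)) y 1 = y 1 + a.2.1 := by
      intro y
      rw [IsometryEquiv.addRight_apply]
      rfl
    have e2 : ∀ y : E3, (IsometryEquiv.addRight (rv a)) y 2 = y 2 + a.2.2 := by
      intro y
      rw [IsometryEquiv.addRight_apply]
      rfl
    constructor
    · rintro ⟨y, hy, rfl⟩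
      simp only [unitCube, Set.mem_setOf_eq, Equiv.coe_addRight, Prod.fst_add, Prod.snd_add] at hy ⊢
      rw [e0, e1, e2]
      push_cast
      refine ⟨⟨?_, ?_⟩, ⟨?_, ?_⟩, ⟨?_, ?_⟩⟩ <;> linarith [hy.1.1, hy.1.2, hy.2.1.1, hy.2.1.2,
        hy.2.2.1, hy.2.2.2]
    · intro hx
      refine ⟨(IsometryEquiv.addRight (rv a)).symm x, ?_, IsometryEquiv.apply_symm_apply _ _⟩
      set y := (IsometryEquiv.addRight (rv a)).symm x with hy
      have hxy : x = (IsometryEquiv.addRight (rv a)) y := by
        rw [hy, IsometryEquiv.apply_symm_apply]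
      rw [hxy] at hx
      simp only [unitCube, Set.mem_setOf_eq, Equiv.coe_addRight, Prod.fst_add, Prod.snd_add] at hx ⊢
      rw [e0, e1, e2] at hx
      push_cast at hx
      refine ⟨⟨?_, ?_⟩, ⟨?_, ?_⟩, ⟨?_, ?_⟩⟩ <;> linarith [hx.1.1, hx.1.2, hx.2.1.1, hx.2.1.2,
        hx.2.2.1, hx.2.2.2]

/-- The cyclic permutation. -/
noncomputable def lcyc : LSym where
  g := ⟨fun v => (v.2.1, v.2.2, v.1), fun v => (v.2.2, v.1, v.2.1), fun _ => rfl, fun _ => rfl⟩
  d := ⟨fun t => match t with
      | Dir.px => Dir.pz | Dir.nx => Dir.nz | Dir.py => Dir.px | Dir.ny => Dir.nx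
      | Dir.pz => Dir.py | Dir.nz => Dir.ny,
    fun t => match t with
      | Dir.pz => Dir.px | Dir.nz => Dir.nx | Dir.px => Dir.py | Dir.nx => Dir.ny
      | Dir.py => Dir.pz | Dir.ny => Dir.nz,
    fun t => by cases t <;> rfl, fun t => by cases t <;> rfl⟩
  G := permIso (finRotate 3).symm
  hg := by
    intro v t
    cases t <;> rfl
  hperp := by
    intro a b
    cases a <;> cases b <;> rfl
  hG := by
    intro v
    ext x
    have h0 : ∀ y : E3, permIso (finRotate 3).symm y 0 = y 1 := by
      intro y; rw [permIso_apply]; rfl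
    have h1 : ∀ y : E3, permIso (finRotate 3).symm y 1 = y 2 := by
      intro y; rw [permIso_apply]; rfl
    have h2 : ∀ y : E3, permIso (finRotate 3).symm y 2 = y 0 := by
      intro y; rw [permIso_apply]; rfl
    constructor
    · rintro ⟨y, hy, rfl⟩
      simp only [unitCube, Set.mem_setOf_eq, Equiv.coe_fn_mk] at hy ⊢
      rw [h0, h1, h2]
      exact ⟨hy.2.1, hy.2.2, hy.1⟩
    · intro hx
      refine ⟨(permIso (finRotate 3).symm).symm x, ?_, IsometryEquiv.apply_symm_apply _ _⟩
      set y := (permIso (finRotate 3).symm).symm x with hy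
      have hxy : x = permIso (finRotate 3).symm y := by
        rw [hy, IsometryEquiv.apply_symm_apply]
      rw [hxy] at hx
      simp only [unitCube, Set.mem_setOf_eq, Equiv.coe_fn_mk] at hx ⊢
      rw [h0, h1, h2] at hx
      exact ⟨hx.2.2, hx.1, hx.2.1⟩

/-- The exchange of the first two coordinates. -/
noncomputable def lswap : LSym where
  g := ⟨fun v => (v.2.1, v.1, v.2.2), fun v => (v.2.1, v.1, v.2.2), fun _ => rfl, fun _ => rfl⟩
  d := ⟨fun t => match t with
      | Dir.px => Dir.py | Dir.nx => Dir.ny | Dir.py => Dir.px | Dir.ny => Dir.nx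
      | Dir.pz => Dir.pz | Dir.nz => Dir.nz,
    fun t => match t with
      | Dir.px => Dir.py | Dir.nx => Dir.ny | Dir.py => Dir.px | Dir.ny => Dir.nx
      | Dir.pz => Dir.pz | Dir.nz => Dir.nz,
    fun t => by cases t <;> rfl, fun t => by cases t <;> rfl⟩
  G := permIso (Equiv.swap 0 1)
  hg := by
    intro v t
    cases t <;> rfl
  hperp := by
    intro a b
    cases a <;> cases b <;> rfl
  hG := by
    intro v
    ext x
    have h0 : ∀ y : E3, permIso (Equiv.swap 0 1) y 0 = y 1 := by
      intro y; rw [permIso_apply]; rfl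
    have h1 : ∀ y : E3, permIso (Equiv.swap 0 1) y 1 = y 0 := by
      intro y; rw [permIso_apply]; rfl
    have h2 : ∀ y : E3, permIso (Equiv.swap 0 1) y 2 = y 2 := by
      intro y; rw [permIso_apply]; rfl
    constructor
    · rintro ⟨y, hy, rfl⟩
      simp only [unitCube, Set.mem_setOf_eq, Equiv.coe_fn_mk] at hy ⊢
      rw [h0, h1, h2]
      exact ⟨hy.2.1, hy.1, hy.2.2⟩
    · intro hx
      refine ⟨(permIso (Equiv.swap 0 1)).symm x, ?_, IsometryEquiv.apply_symm_apply _ _⟩
      set y := (permIso (Equiv.swap 0 1)).symm x with hy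
      have hxy : x = permIso (Equiv.swap 0 1) y := by
        rw [hy, IsometryEquiv.apply_symm_apply]
      rw [hxy] at hx
      simp only [unitCube, Set.mem_setOf_eq, Equiv.coe_fn_mk] at hx ⊢
      rw [h0, h1, h2] at hx
      exact ⟨hx.2.1, hx.1, hx.2.2⟩

/-- Reflection of space in the first coordinate. -/
noncomputable def reflIso : E3 ≃ᵢ E3 :=
  (LinearIsometryEquiv.piLpCongrRight 2 fun i : Fin 3 =>
    if i = 0 then LinearIsometryEquiv.neg ℝ else LinearIsometryEquiv.refl ℝ ℝ).toIsometryEquiv

theorem reflIso_zero (y : E3) : reflIso y 0 = - y 0 := by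
  simp [reflIso]

theorem reflIso_one (y : E3) : reflIso y 1 = y 1 := by
  simp [reflIso]

theorem reflIso_two (y : E3) : reflIso y 2 = y 2 := by
  simp [reflIso]

/-- The reflection of the first coordinate. -/
noncomputable def lrefl : LSym where
  g := ⟨fun v => (-1 - v.1, v.2.1, v.2.2), fun v => (-1 - v.1, v.2.1, v.2.2),
    fun v => by ext <;> simp, fun v => by ext <;> simp⟩
  d := ⟨fun t => match t with
      | Dir.px => Dir.nx | Dir.nx => Dir.px | Dir.py => Dir.py | Dir.ny => Dir.ny
      | Dir.pz => Dir.pz | Dir.nz => Dir.nz,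
    fun t => match t with
      | Dir.px => Dir.nx | Dir.nx => Dir.px | Dir.py => Dir.py | Dir.ny => Dir.ny
      | Dir.pz => Dir.pz | Dir.nz => Dir.nz,
    fun t => by cases t <;> rfl, fun t => by cases t <;> rfl⟩
  G := reflIso
  hg := by
    intro v t
    cases t <;> simp [Dir.vec, Prod.ext_iff] <;> ring
  hperp := by
    intro a b
    cases a <;> cases b <;> rfl
  hG := by
    intro v
    ext x
    constructor
    · rintro ⟨y, hy, rfl⟩
      simp only [unitCube, Set.mem_setOf_eq, Equiv.coe_fn_mk] at hy ⊢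
      rw [reflIso_zero, reflIso_one, reflIso_two]
      push_cast
      exact ⟨⟨by linarith [hy.1.2], by linarith [hy.1.1]⟩, hy.2.1, hy.2.2⟩
    · intro hx
      refine ⟨reflIso.symm x, ?_, IsometryEquiv.apply_symm_apply _ _⟩
      set y := reflIso.symm x with hy
      have hxy : x = reflIso y := by
        rw [hy, IsometryEquiv.apply_symm_apply]
      rw [hxy] at hx
      simp only [unitCube, Set.mem_setOf_eq, Equiv.coe_fn_mk] at hx ⊢
      rw [reflIso_zero, reflIso_one, reflIso_two] at hx
      push_cast at hx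
      exact ⟨⟨by linarith [hx.1.2], by linarith [hx.1.1]⟩, hx.2.1, hx.2.2⟩

theorem LatSym.exists_lsym {g : Cube → Cube} (h : LatSym g) : ∃ s : LSym, ∀ v, s.g v = g v := by
  induction h with
  | one => exact ⟨lone, fun _ => rfl⟩
  | shift a _ ih =>
    obtain ⟨s, hs⟩ := ih
    exact ⟨lcomp s (lshift a), fun v => by simp only [← hs]; rfl⟩
  | cyc _ ih =>
    obtain ⟨s, hs⟩ := ih
    exact ⟨lcomp s lcyc, fun v => by simp only [← hs]; rfl⟩
  | swap _ ih =>
    obtain ⟨s, hs⟩ := ih
    exact ⟨lcomp s lswap, fun v => by simp only [← hs]; rfl⟩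
  | refl _ ih =>
    obtain ⟨s, hs⟩ := ih
    exact ⟨lcomp s lrefl, fun v => by simp only [← hs]; rfl⟩

/-- Reduction of an unfolding theorem to one position of the polycube. -/
theorem LatSym.reduce {g : Cube → Cube} (hg : LatSym g) {P : Finset Cube} (hE : EdgeOK P)
    (hS : SurfConn P) (hV : (vertF P).card + (faceF P).card = (edgeF P).card + 2)
    (main : ∀ Q : Finset Cube, Q = P.image g → EdgeOK Q → SurfConn Q →
      (vertF Q).card + (faceF Q).card = (edgeF Q).card + 2 → HasEdgeUnfolding Q) :
    HasEdgeUnfolding P := by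
  obtain ⟨s, hs⟩ := hg.exists_lsym
  have e : img s P = P.image g := by
    ext v
    simp only [img, Finset.mem_map, Finset.mem_image, Equiv.coe_toEmbedding, hs]
  exact HasEdgeUnfolding.of_img s (main _ e (edgeOK_img s hE) (surfConn_img s hS)
    (euler_img s hE hV))

end Pool.Agent.Helper84.SURF
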