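import Pool.Agent.Helper53.GP.Symm
import Pool.Agent.Helper16.LD.Dual
import Pool.Agent.Helper84.LD.Unfold

/-!
# The hypotheses on the boundary surface under the lattice symmetries (project SURF, MP_409f7f_co)

For `s : LSym` the polycube `P.map s.g.toEmbedding` has the same numbers of vertices, edges and
faces, is connected and edge-manifold if `P` is; inverse symmetries; the generators (cyclic
permutation, exchange of two coordinates, reflection, translations).
-/

set_option autoImplicit false

namespace Pool.Agent.Helper84.SURF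

open Pool.Agent.Helper17.UF Pool.Agent.Helper84.LD Pool.Agent.Helper16.LD Pool.Agent.Helper53.GP
  Relation

/-- The image of a polycube under a symmetry. -/
abbrev img (s : LSym) (P : Finset Cube) : Finset Cube := P.map s.g.toEmbedding

section

variable (s : LSym) {P : Finset Cube}

theorem mem_img {v : Cube} : s.g v ∈ img s P ↔ v ∈ P := by
  simp only [img, Finset.mem_map_equiv, Equiv.symm_apply_apply]

theorem lsym_neg (t : Dir) : s.d t.neg = (s.d t).neg := by
  apply vec_injective
  have h1 := s.hg (0 + t.vec) t.neg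
  rw [s.hg 0 t, Dir.vec_neg, show (0 : Cube) + t.vec + -t.vec = 0 by abel] at h1
  rw [Dir.vec_neg]
  have h2 : s.g 0 + ((s.d t).vec + (s.d t.neg).vec) = s.g 0 + 0 := by
    rw [add_zero, ← add_assoc]; exact h1.symm
  have h3 := add_left_cancel h2
  exact eq_neg_of_add_eq_zero_right h3

theorem edgeOK_img (h : EdgeOK P) : EdgeOK (img s P) := by
  intro y hy u v huv h1 h2
  obtain ⟨y, rfl⟩ := s.g.surjective y
  obtain ⟨u, rfl⟩ := s.d.surjective u
  obtain ⟨v, rfl⟩ := s.d.surjective v
  rw [← s.hg, mem_img] at h1 h2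
  rw [← s.hg, ← s.hg, mem_img]
  rw [mem_img] at hy
  rw [s.hperp] at huv
  exact h y hy u v huv h1 h2

theorem nbr_f (A : Face) (t : Dir) :
    nbr (img s P) (s.f A) (s.d t) = (s.f (nbr P A t).1, s.d (nbr P A t).2) := by
  have m1 : (s.f A).1 + (s.d t).vec + (s.f A).2.vec = s.g (A.1 + t.vec + A.2.vec) := by
    rw [s.hg, s.hg]; rfl
  have m2 : (s.f A).1 + (s.d t).vec = s.g (A.1 + t.vec) := by
    rw [s.hg]; rfl
  unfold nbr
  by_cases h1 : A.1 + t.vec + A.2.vec ∈ P
  · rw [if_pos h1, if_pos (by rw [m1, mem_img]; exact h1), m1, lsym_neg]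
    simp only [LSym.f, lsym_neg]
  · rw [if_neg h1, if_neg (by rw [m1, mem_img]; exact h1)]
    by_cases h2 : A.1 + t.vec ∈ P
    · rw [if_pos h2, if_pos (by rw [m2, mem_img]; exact h2), m2, lsym_neg]
      rfl
    · rw [if_neg h2, if_neg (by rw [m2, mem_img]; exact h2)]
      rfl

theorem surfConn_img (h : SurfConn P) : SurfConn (img s P) := by
  intro A B hA hB
  have h1 := h (s.fi A) (s.fi B) (s.isFace_fi hA) (s.isFace_fi hB)
  have h2 : ReflTransGen (fun C D => ∃ t, Dir.perp C.2 t = true ∧ D = (nbr (img s P) C t).1)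
      (s.f (s.fi A)) (s.f (s.fi B)) := by
    refine h1.lift s.f ?_
    rintro C D ⟨t, ht, rfl⟩
    refine ⟨s.d t, ?_, ?_⟩
    · rw [← ht]; exact s.hperp C.2 t
    · rw [nbr_f]
  rwa [s.f_fi, s.f_fi] at h2

theorem f_injective : Function.Injective s.f := by
  intro A B h
  rw [← s.fi_f A, h, s.fi_f]

theorem card_faceF_img : (faceF (img s P)).card = (faceF P).card := by
  have h : faceF (img s P) = (faceF P).image s.f := by
    ext A
    rw [mem_faceF, Finset.mem_image]
    constructor
    · intro hA
      exact ⟨s.fi A, mem_faceF.2 (s.isFace_fi hA), s.f_fi A⟩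
    · rintro ⟨B, hB, rfl⟩
      exact (s.isFace_f P B).2 (mem_faceF.1 hB)
  rw [h, Finset.card_image_of_injective _ (f_injective s)]

/-- The constant vector between the actions on cubes and on lattice points. -/
def symN : Cube := up (s.d Dir.px).neg + up (s.d Dir.py).neg + up (s.d Dir.pz).neg

/-- The action on lattice points. -/
def symP (p : Cube) : Cube := s.g p + symN s

theorem symP_injective : Function.Injective (symP s) := fun _ _ h =>
  s.g.injective (add_right_cancel h)

/-- The positive version of a direction. -/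
def pos : Dir → Dir
  | Dir.px => Dir.px | Dir.nx => Dir.px | Dir.py => Dir.py | Dir.ny => Dir.py
  | Dir.pz => Dir.pz | Dir.nz => Dir.pz

theorem g_up (v : Cube) (t : Dir) :
    s.g (v + up t) + up (s.d (pos t)).neg = s.g v + up (s.d t) := by
  have hp : ∀ t : Dir, (pos t = t ∧ up t = t.vec) ∨ (pos t = t.neg ∧ up t = 0) := by decide
  rcases hp t with ⟨h1, h2⟩ | ⟨h1, h2⟩
  · rw [h1, h2, s.hg, ← vec_up (s.d t)]
    abel
  · rw [h1, h2, add_zero, lsym_neg, Dir.neg_neg]

theorem sum_pos (F : Dir → Cube) {d t w : Dir} (h1 : Dir.perp d t = true)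
    (h2 : Dir.perp d w = true) (h3 : Dir.perp t w = true) :
    F (pos d) + F (pos t) + F (pos w) = F Dir.px + F Dir.py + F Dir.pz := by
  cases d <;> cases t <;> first | (exact absurd h1 (by decide)) | skip
  all_goals cases w <;> first | (exact absurd h2 (by decide)) | (exact absurd h3 (by decide)) | skip
  all_goals simp only [pos]
  all_goals abel

theorem cnr_f (A : Face) {t w : Dir} (h1 : Dir.perp A.2 t = true) (h2 : Dir.perp A.2 w = true)
    (h3 : Dir.perp t w = true) : cnr (s.f A) (s.d t) (s.d w) = symP s (cnr A t w) := by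
  obtain ⟨v, d⟩ := A
  have e1 := g_up s v d
  have e2 := g_up s (v + up d) t
  have e3 := g_up s (v + up d + up t) w
  have e4 := sum_pos (fun t => up (s.d t).neg) h1 h2 h3
  unfold cnr symP symN LSym.f
  simp only at e4 ⊢
  rw [← e4, show v + (up d + up t + up w) = v + up d + up t + up w by abel]
  calc s.g v + (up (s.d d) + up (s.d t) + up (s.d w))
      = (s.g v + up (s.d d)) + up (s.d t) + up (s.d w) := by abel
    _ = (s.g (v + up d) + up (s.d t)) + up (s.d (pos d)).neg + up (s.d w) := by rw [← e1]; abel
    _ = (s.g (v + up d + up t) + up (s.d w)) + up (s.d (pos t)).neg + up (s.d (pos d)).neg := by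
        rw [← e2]; abel
    _ = _ := by rw [← e3]; abel

theorem mem_vertF_iff' {p : Cube} : p ∈ vertF P ↔ ∃ (A : Face) (t w : Dir), IsFace P A ∧
    Dir.perp A.2 t = true ∧ Dir.perp A.2 w = true ∧ Dir.perp t w = true ∧ p = cnr A t w := by
  have k1 : ∀ d t : Dir, Dir.perp d t = true → Dir.perp d (Dir.cross d t) = true ∧
      Dir.perp t (Dir.cross d t) = true := by decide
  have k2 : ∀ d t w : Dir, Dir.perp d t = true → Dir.perp d w = true → Dir.perp t w = true →
      w = Dir.cross d t ∨ w = (Dir.cross d t).neg := by decide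
  constructor
  · intro h
    unfold vertF at h
    rw [Finset.mem_image] at h
    obtain ⟨⟨A, t⟩, hs, rfl⟩ := h
    obtain ⟨h1, h2⟩ := mem_sideF.1 hs
    exact ⟨A, t, _, h1, h2, (k1 _ _ h2).1, (k1 _ _ h2).2, rfl⟩
  · rintro ⟨A, t, w, hA, h1, h2, h3, rfl⟩
    exact cnr_mem_vertF hA h1 (k2 _ _ _ h1 h2 h3)

theorem card_vertF_img : (vertF (img s P)).card = (vertF P).card := by
  have h : vertF (img s P) = (vertF P).image (symP s) := by
    ext p
    rw [Finset.mem_image]
    constructor
    · intro hp
      obtain ⟨A, t, w, hA, h1, h2, h3, rfl⟩ := mem_vertF_iff'.1 hp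
      obtain ⟨t, rfl⟩ := s.d.surjective t
      obtain ⟨w, rfl⟩ := s.d.surjective w
      have hfi := s.isFace_fi hA
      have e : s.f (s.fi A) = A := s.f_fi A
      rw [← e] at h1 h2
      have h1' : Dir.perp (s.fi A).2 t = true := by rw [← s.hperp]; exact h1
      have h2' : Dir.perp (s.fi A).2 w = true := by rw [← s.hperp]; exact h2
      have h3' : Dir.perp t w = true := by rw [← s.hperp]; exact h3
      refine ⟨cnr (s.fi A) t w, mem_vertF_iff'.2 ⟨_, t, w, hfi, h1', h2', h3', rfl⟩, ?_⟩
      rw [← cnr_f s _ h1' h2' h3', e]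
    · rintro ⟨q, hq, rfl⟩
      obtain ⟨A, t, w, hA, h1, h2, h3, rfl⟩ := mem_vertF_iff'.1 hq
      refine mem_vertF_iff'.2 ⟨s.f A, s.d t, s.d w, (s.isFace_f P A).2 hA, ?_, ?_, ?_, ?_⟩
      · rw [← h1]; exact s.hperp A.2 t
      · rw [← h2]; exact s.hperp A.2 w
      · rw [← h3]; exact s.hperp t w
      · exact (cnr_f s A h1 h2 h3).symm
  rw [h, Finset.card_image_of_injective _ (symP_injective s)]

theorem card_edgeF_img (hE : EdgeOK P) : (edgeF (img s P)).card = (edgeF P).card := by
  rw [card_edgeF (P := img s P) (edgeOK_img s hE), card_edgeF (P := P) hE, card_faceF_img]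

/-- The Euler characteristic of the image. -/
theorem euler_img (hE : EdgeOK P)
    (h : (vertF P).card + (faceF P).card = (edgeF P).card + 2) :
    (vertF (img s P)).card + (faceF (img s P)).card = (edgeF (img s P)).card + 2 := by
  rw [card_vertF_img, card_faceF_img, card_edgeF_img s hE, h]

end

/-! ### Inverse symmetries and products -/

/-- The inverse symmetry. -/
noncomputable def lsymm (s : LSym) : LSym where
  g := s.g.symm
  d := s.d.symm
  G := s.G.symm
  hg := by
    intro v t
    apply s.g.injective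
    rw [s.hg, Equiv.apply_symm_apply, Equiv.apply_symm_apply, Equiv.apply_symm_apply]
  hperp := by
    intro a b
    rw [← s.hperp, Equiv.apply_symm_apply, Equiv.apply_symm_apply]
  hG := by
    intro v
    have h := s.hG (s.g.symm v)
    rw [Equiv.apply_symm_apply] at h
    rw [← h, ← Set.image_comp]
    have h2 : (s.G.symm : E3 → E3) ∘ (s.G : E3 → E3) = id := by
      funext x; simp
    rw [h2, Set.image_id]

/-- The product of two symmetries (first `s`, then `r`). -/
noncomputable def lcomp (s r : LSym) : LSym where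
  g := s.g.trans r.g
  d := s.d.trans r.d
  G := s.G.trans r.G
  hg := by
    intro v t
    simp only [Equiv.trans_apply]
    rw [s.hg, r.hg]
  hperp := by
    intro a b
    simp only [Equiv.trans_apply]
    rw [r.hperp, s.hperp]
  hG := by
    intro v
    have h : (s.G.trans r.G : E3 → E3) '' unitCube v = r.G '' (s.G '' unitCube v) := by
      rw [← Set.image_comp]; rfl
    rw [Equiv.trans_apply, ← r.hG, ← s.hG]
    exact h

/-- If the image has an edge unfolding then so has the polycube. -/
theorem HasEdgeUnfolding.of_img (s : LSym) {P : Finset Cube} (h : HasEdgeUnfolding (img s P)) :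
    HasEdgeUnfolding P := by
  have h1 := (lsymm s).hasEdgeUnfolding h
  have h2 : (P.map s.g.toEmbedding).map (lsymm s).g.toEmbedding = P := by
    rw [Finset.map_map]
    have : s.g.toEmbedding.trans (lsymm s).g.toEmbedding = Function.Embedding.refl _ := by
      ext1 v
      exact s.g.symm_apply_apply v
    rw [this, Finset.map_refl]
  rwa [h2] at h1

end Pool.Agent.Helper84.SURF
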